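import Pool.Agent.N331.RP.PSI0

set_option autoImplicit false

namespace Pool.Agent.N331.RP

open Finset

/-- Part (i) in general form. -/
theorem tail_bound (c : ℕ → ℝ) (K : ℝ) (hK : 0 ≤ K) (hT : ∀ t, |T c t| ≤ K * Real.sqrt t) (β : ℝ)
    (hβ : 7 / 8 ≤ β) (y w : ℕ) (hy : 1 ≤ y) (hyw : y ≤ w) :
    |∑ m ∈ Ioc y w, c m * (m : ℝ) ^ (-β)| ≤ 4 * K * (Real.sqrt y * (y : ℝ) ^ (-β)) := by
  rw [abel_id c (fun m => (m : ℝ) ^ (-β)) y w hyw]
  set φ : ℕ → ℝ := fun m => Real.sqrt m * (m : ℝ) ^ (-β) with hφ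
  have hg : ∀ m : ℕ, 0 ≤ (m : ℝ) ^ (-β) := fun m => Real.rpow_nonneg (Nat.cast_nonneg m) _
  have hφ0 : ∀ m, 0 ≤ φ m := fun m => mul_nonneg (Real.sqrt_nonneg _) (hg m)
  have hmono : ∀ m : ℕ, 1 ≤ m → 0 ≤ (m : ℝ) ^ (-β) - ((m + 1 : ℕ) : ℝ) ^ (-β) := by
    intro m hm
    have hm0 : (0 : ℝ) < m := by exact_mod_cast hm
    have := Real.rpow_le_rpow_of_nonpos hm0 (show (m : ℝ) ≤ ((m + 1 : ℕ) : ℝ) by push_cast; linarith)
      (show -β ≤ 0 by linarith)
    linarith
  have h1 : |∑ m ∈ Ico y w, T c m * ((m : ℝ) ^ (-β) - ((m + 1 : ℕ) : ℝ) ^ (-β))| ≤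
      3 * K * (φ y - φ w) := by
    calc |∑ m ∈ Ico y w, T c m * ((m : ℝ) ^ (-β) - ((m + 1 : ℕ) : ℝ) ^ (-β))|
        ≤ ∑ m ∈ Ico y w, |T c m * ((m : ℝ) ^ (-β) - ((m + 1 : ℕ) : ℝ) ^ (-β))| :=
          Finset.abs_sum_le_sum_abs _ _
      _ ≤ ∑ m ∈ Ico y w, 3 * K * (φ m - φ (m + 1)) := by
          apply Finset.sum_le_sum
          intro m hm
          rw [Finset.mem_Ico] at hm
          have h2 := hmono m (by omega)
          rw [abs_mul, abs_of_nonneg h2]
          calc |T c m| * ((m : ℝ) ^ (-β) - ((m + 1 : ℕ) : ℝ) ^ (-β))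
              ≤ (K * Real.sqrt m) * ((m : ℝ) ^ (-β) - ((m + 1 : ℕ) : ℝ) ^ (-β)) :=
                mul_le_mul_of_nonneg_right (hT m) h2
            _ = K * (Real.sqrt m * ((m : ℝ) ^ (-β) - ((m + 1 : ℕ) : ℝ) ^ (-β))) := by ring
            _ ≤ K * (3 * (φ m - φ (m + 1))) :=
                mul_le_mul_of_nonneg_left (tele m (by omega) β hβ) hK
            _ = 3 * K * (φ m - φ (m + 1)) := by ring
      _ = 3 * K * (φ y - φ w) := by
          rw [← Finset.mul_sum]
          congr 1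
          clear_value φ
          induction w, hyw using Nat.le_induction with
          | base => simp
          | succ q hq ih =>
            rw [Finset.sum_Ico_succ_top hq, ih]
            ring
  have h3 : |T c w * (w : ℝ) ^ (-β)| ≤ K * φ w := by
    rw [abs_mul, abs_of_nonneg (hg w)]
    calc |T c w| * (w : ℝ) ^ (-β) ≤ (K * Real.sqrt w) * (w : ℝ) ^ (-β) :=
          mul_le_mul_of_nonneg_right (hT w) (hg w)
      _ = K * φ w := by rw [hφ]; ring
  have h4 : |T c y * (y : ℝ) ^ (-β)| ≤ K * φ y := by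
    rw [abs_mul, abs_of_nonneg (hg y)]
    calc |T c y| * (y : ℝ) ^ (-β) ≤ (K * Real.sqrt y) * (y : ℝ) ^ (-β) :=
          mul_le_mul_of_nonneg_right (hT y) (hg y)
      _ = K * φ y := by rw [hφ]; ring
  have h5 : 0 ≤ K * φ w := mul_nonneg hK (hφ0 w)
  have e : 4 * K * (Real.sqrt y * (y : ℝ) ^ (-β)) = 4 * K * φ y := rfl
  rw [e]
  rw [abs_le] at h1 h3 h4 ⊢
  constructor <;> linarith [h1.1, h1.2, h3.1, h3.2, h4.1, h4.2]

variable {f h : ℕ → ℝ} {Q : ℝ}

/-- Abel inequality for the weights `1 / m`. -/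
theorem abel_one (hF : ∀ t, |T f t| ≤ Q) (p q : ℕ) (hp : 1 ≤ p) :
    |∑ m ∈ Ioc p q, f m / m| ≤ 2 * Q / p := by
  have := abel_ineq f (fun m => 1 / (m : ℝ)) Q hF (fun m _ => by positivity) (fun m hm => by
    apply one_div_le_one_div_of_le
    · exact_mod_cast hm
    · push_cast; linarith) p q hp
  calc |∑ m ∈ Ioc p q, f m / m| = |∑ m ∈ Ioc p q, f m * (1 / (m : ℝ))| := by
        congr 1
        exact Finset.sum_congr rfl fun m _ => by ring
    _ ≤ 2 * Q * (1 / p) := this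
    _ = 2 * Q / p := by ring

theorem split_sum (s y : ℕ) (hsy : s ≤ y) (F : ℕ → ℝ) :
    ∑ a ∈ Icc 1 y, F a = ∑ a ∈ Icc 1 s, F a + ∑ a ∈ Ioc s y, F a := by
  rw [← Finset.sum_union]
  · congr 1
    ext x
    simp only [Finset.mem_union, Finset.mem_Icc, Finset.mem_Ioc]
    omega
  · rw [Finset.disjoint_left]
    intro x hx hx'
    simp only [Finset.mem_Icc, Finset.mem_Ioc] at hx hx'
    omega

/-- One of the two narrow parts. -/
theorem narrow (hf1 : ∀ n, |f n| ≤ 1) (hH : ∀ t, |T h t| ≤ Q) (s : ℕ) (hs : 1 ≤ s) :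
    |∑ a ∈ Icc 1 s, f a / a * ∑ b ∈ Ioc (s * s / a) (s * s), h b / b| ≤ 4 * Q / s := by
  have hQ : 0 ≤ Q := (abs_nonneg _).trans (hH 0)
  have hs0 : (0 : ℝ) < s := by exact_mod_cast hs
  calc |∑ a ∈ Icc 1 s, f a / a * ∑ b ∈ Ioc (s * s / a) (s * s), h b / b|
      ≤ ∑ a ∈ Icc 1 s, |f a / a * ∑ b ∈ Ioc (s * s / a) (s * s), h b / b| :=
        Finset.abs_sum_le_sum_abs _ _
    _ ≤ ∑ a ∈ Icc 1 s, 4 * Q / (s * s) := by
        apply Finset.sum_le_sum
        intro a ha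
        rw [Finset.mem_Icc] at ha
        have ha0 : (0 : ℝ) < a := by exact_mod_cast ha.1
        have hp : 1 ≤ s * s / a := by
          rw [Nat.le_div_iff_mul_le (by omega)]
          nlinarith
        have h1 := abel_one (f := h) hH (s * s / a) (s * s) hp
        have hp0 : (0 : ℝ) < ((s * s / a : ℕ) : ℝ) := by exact_mod_cast hp
        -- `s² ≤ 2 a ⌊s²/a⌋`
        have h2 : s * s ≤ 2 * (a * (s * s / a)) := by
          have h3 : s * s < a * (s * s / a) + a := by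
            have h5 := Nat.div_add_mod (s * s) a
            have h6 := Nat.mod_lt (s * s) (show a > 0 by omega)
            omega
          have h4 : a ≤ a * (s * s / a) := Nat.le_mul_of_pos_right a (by omega)
          omega
        have h2' : (s : ℝ) * s ≤ 2 * (a * ((s * s / a : ℕ) : ℝ)) := by exact_mod_cast h2
        rw [abs_mul, abs_div, abs_of_pos ha0]
        calc |f a| / a * |∑ b ∈ Ioc (s * s / a) (s * s), h b / b|
            ≤ 1 / a * (2 * Q / ((s * s / a : ℕ) : ℝ)) := by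
              apply mul_le_mul _ h1 (abs_nonneg _) (by positivity)
              exact div_le_div_of_nonneg_right (hf1 a) ha0.le
          _ = 2 * Q / (a * ((s * s / a : ℕ) : ℝ)) := by field_simp
          _ ≤ 4 * Q / (s * s) := by
              rw [div_le_div_iff₀ (by positivity) (by positivity)]
              nlinarith
    _ = 4 * Q / s := by
        rw [Finset.sum_const, Nat.card_Icc, nsmul_eq_mul, Nat.add_sub_cancel]
        field_simp

/-- Part (ii) in general form. -/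
theorem prod_bound (hf1 : ∀ n, |f n| ≤ 1) (hh1 : ∀ n, |h n| ≤ 1) (hF : ∀ t, |T f t| ≤ Q)
    (hH : ∀ t, |T h t| ≤ Q) (s : ℕ) (hs : 1 ≤ s) :
    |∑ a ∈ Icc 1 (s * s), ∑ b ∈ Icc 1 (s * s / a), f a / a * (h b / b) -
      (∑ a ∈ Icc 1 (s * s), f a / a) * ∑ b ∈ Icc 1 (s * s), h b / b| ≤
      8 * Q / s + 4 * Q ^ 2 / (s * s) := by
  have hQ : 0 ≤ Q := (abs_nonneg _).trans (hH 0)
  have hs0 : (0 : ℝ) < s := by exact_mod_cast hs
  have hss : s ≤ s * s := Nat.le_mul_of_pos_left s hs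
  -- the difference
  have e1 : ∑ a ∈ Icc 1 (s * s), ∑ b ∈ Icc 1 (s * s / a), f a / a * (h b / b) -
      (∑ a ∈ Icc 1 (s * s), f a / a) * ∑ b ∈ Icc 1 (s * s), h b / b =
      -∑ a ∈ Icc 1 (s * s), ∑ b ∈ Ioc (s * s / a) (s * s), f a / a * (h b / b) := by
    rw [Finset.sum_mul, ← Finset.sum_sub_distrib, ← Finset.sum_neg_distrib]
    apply Finset.sum_congr rfl
    intro a ha
    rw [split_sum (s * s / a) (s * s) (Nat.div_le_self _ _) (fun b => h b / (b : ℝ)),
      ← Finset.mul_sum, ← Finset.mul_sum]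
    ring
  have e2 : ∑ a ∈ Ioc s (s * s), ∑ b ∈ Ioc (s * s / a) (s * s), f a / a * (h b / b) =
      ∑ a ∈ Ioc s (s * s), ∑ b ∈ Ioc (s * s / a) s, f a / a * (h b / b) +
        (∑ a ∈ Ioc s (s * s), f a / a) * ∑ b ∈ Ioc s (s * s), h b / b := by
    rw [Finset.sum_mul, ← Finset.sum_add_distrib]
    apply Finset.sum_congr rfl
    intro a ha
    rw [Finset.mem_Ioc] at ha
    have h1 : s * s / a ≤ s := by
      apply Nat.div_le_of_le_mul
      exact Nat.mul_le_mul_right s ha.1.le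
    rw [Finset.mul_sum, ← Finset.sum_union]
    · congr 1
      ext x
      simp only [Finset.mem_union, Finset.mem_Ioc]
      omega
    · rw [Finset.disjoint_left]
      intro x hx hx'
      simp only [Finset.mem_Ioc] at hx hx'
      omega
  have e3 : ∑ a ∈ Ioc s (s * s), ∑ b ∈ Ioc (s * s / a) s, f a / a * (h b / b) =
      ∑ b ∈ Icc 1 s, ∑ a ∈ Ioc (s * s / b) (s * s), f a / a * (h b / b) := by
    apply Finset.sum_comm'
    intro a b
    simp only [Finset.mem_Icc, Finset.mem_Ioc]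
    constructor
    · rintro ⟨⟨h1, h2⟩, h3, h4⟩
      have hb : 0 < b := lt_of_le_of_lt (Nat.zero_le _) h3
      rw [Nat.div_lt_iff_lt_mul (by omega), mul_comm b a] at h3
      refine ⟨⟨?_, h2⟩, hb, h4⟩
      rw [Nat.div_lt_iff_lt_mul hb]
      exact h3
    · rintro ⟨⟨h1, h2⟩, h3, h4⟩
      rw [Nat.div_lt_iff_lt_mul (by omega)] at h1
      have ha : s < a := by
        by_contra hc
        have : a * b ≤ s * s := Nat.mul_le_mul (by omega) h4
        omega
      refine ⟨⟨ha, h2⟩, ?_, h4⟩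
      rw [Nat.div_lt_iff_lt_mul (by omega), mul_comm b a]
      exact h1
  have b1 : |∑ a ∈ Icc 1 s, ∑ b ∈ Ioc (s * s / a) (s * s), f a / a * (h b / b)| ≤ 4 * Q / s := by
    have := narrow (f := f) (h := h) hf1 hH s hs
    simpa only [Finset.mul_sum] using this
  have b2 : |∑ b ∈ Icc 1 s, ∑ a ∈ Ioc (s * s / b) (s * s), f a / a * (h b / b)| ≤ 4 * Q / s := by
    have := narrow (f := h) (h := f) hh1 hF s hs
    simp only [Finset.mul_sum] at this
    refine le_trans (le_of_eq ?_) this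
    congr 1
    exact Finset.sum_congr rfl fun b _ => Finset.sum_congr rfl fun a _ => mul_comm _ _
  have b3 : |(∑ a ∈ Ioc s (s * s), f a / a) * ∑ b ∈ Ioc s (s * s), h b / b| ≤
      4 * Q ^ 2 / (s * s) := by
    rw [abs_mul]
    calc _ ≤ (2 * Q / s) * (2 * Q / s) :=
          mul_le_mul (abel_one hF s _ hs) (abel_one hH s _ hs) (abs_nonneg _) (by positivity)
      _ = 4 * Q ^ 2 / (s * s) := by field_simp; ring
  rw [e1, abs_neg, split_sum s (s * s) hss, e2, e3]
  refine (abs_add_le _ _).trans ?_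
  refine (add_le_add b1 ((abs_add_le _ _).trans (add_le_add b2 b3))).trans (le_of_eq ?_)
  ring

end Pool.Agent.N331.RP
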