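import Pool.Agent.N71.RP.Stm
import Pool.Agent.N331.RP.PSI1

set_option autoImplicit false

/-! Leaf RP/PSI (helper71). Written by helper331. -/

namespace Pool.Agent.N331.RP

open Finset Pool.Agent.N71.RP

theorem chr_abs {f : ℕ → ℝ} {Q : ℝ} (hf : Chr f Q) (n : ℕ) : |f n| ≤ 1 := by
  rcases hf.val n with h | h | h <;> rw [h] <;> norm_num

theorem T_cv (f h : ℕ → ℝ) (u : ℕ) :
    T (cv f h) u = ∑ a ∈ Icc 1 u, ∑ b ∈ Icc 1 (u / a), f a * h b := by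
  rw [← dsum u (fun a b => f a * h b)]
  rfl

theorem T_cv_le {f h : ℕ → ℝ} {Q : ℝ} (hf : Chr f Q) (hh : Chr h Q) (u : ℕ) :
    |T (cv f h) u| ≤ 3 * Q * Real.sqrt u := by
  have hQ : 0 ≤ Q := (abs_nonneg _).trans (hf.sum 0)
  rw [T_cv]
  refine (hyp (chr_abs hf) (chr_abs hh) hf.sum hh.sum u).trans ?_
  apply mul_le_mul_of_nonneg_left _ (by positivity)
  apply Real.le_sqrt_of_sq_le
  have := Nat.sqrt_le' u
  exact_mod_cast this

theorem la_cv (f h : ℕ → ℝ) (y : ℕ) :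
    la (cv f h) y = ∑ a ∈ Icc 1 y, ∑ b ∈ Icc 1 (y / a), f a / a * (h b / b) := by
  rw [← dsum y (fun a b => f a / a * (h b / b)), la]
  apply Finset.sum_congr rfl
  intro n hn
  rw [cv, Finset.sum_div]
  apply Finset.sum_congr rfl
  intro m hm
  rw [Nat.mem_divisors] at hm
  obtain ⟨⟨k, rfl⟩, h0⟩ := hm
  have hm : 0 < m := Nat.pos_of_ne_zero (fun h => h0 (by rw [h, zero_mul]))
  rw [Nat.mul_div_cancel_left k hm]
  push_cast
  rw [div_mul_div_comm]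

theorem t_PSI : E_PSI := by
  refine ⟨12, by norm_num, ?_⟩
  intro X hX f h hf hh
  have hX0 : (0 : ℝ) < X := by exact_mod_cast (show 0 < X by omega)
  have hX1 : (1 : ℝ) ≤ X := by exact_mod_cast (show 1 ≤ X by omega)
  have hcast : ((X ^ 16 : ℕ) : ℝ) = (X : ℝ) ^ 16 := by push_cast; rfl
  constructor
  · intro β hβ1 hβ2 w hw
    refine (tail_bound (cv f h) (3 * (X : ℝ) ^ 2) (by positivity) (T_cv_le hf hh) β hβ1 (X ^ 16) w
      (Nat.one_le_pow _ _ (by omega)) hw).trans ?_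
    rw [hcast]
    have e1 : Real.sqrt ((X : ℝ) ^ 16) = (X : ℝ) ^ 8 := by
      rw [show (X : ℝ) ^ 16 = ((X : ℝ) ^ 8) ^ 2 by ring]
      exact Real.sqrt_sq (by positivity)
    have e2 : ((X : ℝ) ^ 16) ^ (-β) ≤ 1 / (X : ℝ) ^ 14 := by
      have h1 : ((X : ℝ) ^ 16) ^ (-β) ≤ ((X : ℝ) ^ 16) ^ (-(7 / 8 : ℝ)) :=
        Real.rpow_le_rpow_of_exponent_le (one_le_pow₀ hX1) (by linarith)
      refine h1.trans (le_of_eq ?_)
      rw [Real.rpow_neg (by positivity), ← Real.rpow_natCast (X : ℝ) 16, ← Real.rpow_mul hX0.le,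
        one_div, ← Real.rpow_natCast (X : ℝ) 14]
      norm_num
    rw [e1]
    calc 4 * (3 * (X : ℝ) ^ 2) * ((X : ℝ) ^ 8 * ((X : ℝ) ^ 16) ^ (-β))
        ≤ 4 * (3 * (X : ℝ) ^ 2) * ((X : ℝ) ^ 8 * (1 / (X : ℝ) ^ 14)) := by gcongr
      _ = 12 / (X : ℝ) ^ 4 := by field_simp; ring
  · rw [la_cv]
    have e16 : X ^ 16 = X ^ 8 * X ^ 8 := by ring
    have hX8 : 1 ≤ X ^ 8 := Nat.one_le_pow _ _ (by omega)
    have h1 := prod_bound (f := f) (h := h) (Q := (X : ℝ) ^ 2) (chr_abs hf) (chr_abs hh) hf.sum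
      hh.sum (X ^ 8) hX8
    rw [← e16] at h1
    refine h1.trans ?_
    push_cast
    have e3 : 8 * (X : ℝ) ^ 2 / (X : ℝ) ^ 8 = 8 / (X : ℝ) ^ 6 := by field_simp
    have e4 : 4 * ((X : ℝ) ^ 2) ^ 2 / ((X : ℝ) ^ 8 * (X : ℝ) ^ 8) = 4 / (X : ℝ) ^ 12 := by
      field_simp
    rw [e3, e4]
    have e5 : 4 / (X : ℝ) ^ 12 ≤ 4 / (X : ℝ) ^ 6 := by
      apply div_le_div_of_nonneg_left (by norm_num) (by positivity)
      exact pow_le_pow_right₀ hX1 (by norm_num)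
    calc 8 / (X : ℝ) ^ 6 + 4 / (X : ℝ) ^ 12 ≤ 8 / (X : ℝ) ^ 6 + 4 / (X : ℝ) ^ 6 := by linarith
      _ = 12 / (X : ℝ) ^ 6 := by ring

end Pool.Agent.N331.RP
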