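import Mathlib

set_option autoImplicit false

/-! Leaf RP/PSI (helper71), elementary part: hyperbola method and Abel summation. Written by
helper331. -/

namespace Pool.Agent.N331.RP

open Finset

/-- Summatory function. -/
noncomputable def T (c : ℕ → ℝ) (u : ℕ) : ℝ := ∑ n ∈ Icc 1 u, c n

theorem T_succ (c : ℕ → ℝ) (u : ℕ) : T c (u + 1) = T c u + c (u + 1) := by
  rw [T, T, Finset.sum_Icc_succ_top (by omega)]

/-- Abel summation. -/
theorem abel_id (c g : ℕ → ℝ) (p : ℕ) : ∀ q : ℕ, p ≤ q →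
    ∑ m ∈ Ioc p q, c m * g m = T c q * g q - T c p * g p +
      ∑ m ∈ Ico p q, T c m * (g m - g (m + 1)) := by
  intro q hq
  induction q, hq using Nat.le_induction with
  | base => simp
  | succ q hq ih =>
    rw [Finset.sum_Ioc_succ_top hq, Finset.sum_Ico_succ_top hq, ih, T_succ]
    ring

theorem T_sub (c : ℕ → ℝ) (p q : ℕ) (h : p ≤ q) : ∑ m ∈ Ioc p q, c m = T c q - T c p := by
  have := abel_id c (fun _ => 1) p q h
  simpa using this

/-- Abel inequality. -/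
theorem abel_ineq (c g : ℕ → ℝ) (Q : ℝ) (hT : ∀ t, |T c t| ≤ Q) (hg : ∀ m, 1 ≤ m → 0 ≤ g m)
    (hg' : ∀ m, 1 ≤ m → g (m + 1) ≤ g m) (p q : ℕ) (hp : 1 ≤ p) :
    |∑ m ∈ Ioc p q, c m * g m| ≤ 2 * Q * g p := by
  have hQ : 0 ≤ Q := (abs_nonneg _).trans (hT 0)
  by_cases hpq : p ≤ q
  swap
  · rw [Finset.Ioc_eq_empty (by omega)]
    simp only [Finset.sum_empty, abs_zero]
    have := hg p hp
    positivity
  rw [abel_id c g p q hpq]
  have h1 : |∑ m ∈ Ico p q, T c m * (g m - g (m + 1))| ≤ Q * (g p - g q) := by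
    calc |∑ m ∈ Ico p q, T c m * (g m - g (m + 1))|
        ≤ ∑ m ∈ Ico p q, |T c m * (g m - g (m + 1))| := Finset.abs_sum_le_sum_abs _ _
      _ ≤ ∑ m ∈ Ico p q, Q * (g m - g (m + 1)) := by
          apply Finset.sum_le_sum
          intro m hm
          rw [Finset.mem_Ico] at hm
          have h2 : 0 ≤ g m - g (m + 1) := by linarith [hg' m (by omega)]
          rw [abs_mul, abs_of_nonneg h2]
          exact mul_le_mul_of_nonneg_right (hT m) h2
      _ = Q * (g p - g q) := by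
          rw [← Finset.mul_sum]
          congr 1
          clear hT
          induction q, hpq using Nat.le_induction with
          | base => simp
          | succ q hq ih =>
            rw [Finset.sum_Ico_succ_top hq, ih]
            ring
  have h3 : |T c q * g q| ≤ Q * g q := by
    rw [abs_mul, abs_of_nonneg (hg q (by omega))]
    exact mul_le_mul_of_nonneg_right (hT q) (hg q (by omega))
  have h4 : |T c p * g p| ≤ Q * g p := by
    rw [abs_mul, abs_of_nonneg (hg p hp)]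
    exact mul_le_mul_of_nonneg_right (hT p) (hg p hp)
  rw [abs_le] at h1 h3 h4 ⊢
  constructor <;> linarith [h1.1, h1.2, h3.1, h3.2, h4.1, h4.2]

/-- Double sums over divisors. -/
theorem dsum (u : ℕ) (F : ℕ → ℕ → ℝ) :
    ∑ n ∈ Icc 1 u, ∑ m ∈ n.divisors, F m (n / m) =
      ∑ a ∈ Icc 1 u, ∑ b ∈ Icc 1 (u / a), F a b := by
  rw [Finset.sum_sigma', Finset.sum_sigma']
  refine Finset.sum_nbij' (fun x => ⟨x.2, x.1 / x.2⟩) (fun x => ⟨x.1 * x.2, x.1⟩) ?_ ?_ ?_ ?_ ?_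
  · rintro ⟨n, m⟩ h
    simp only [Finset.mem_sigma, Finset.mem_Icc, Nat.mem_divisors] at h ⊢
    obtain ⟨⟨h1, h2⟩, ⟨k, rfl⟩, h4⟩ := h
    have hm : 0 < m := Nat.pos_of_ne_zero (fun h => h4 (by rw [h, zero_mul]))
    have hk : 0 < k := Nat.pos_of_ne_zero (fun h => h4 (by rw [h, mul_zero]))
    rw [Nat.mul_div_cancel_left k hm]
    refine ⟨⟨hm, ?_⟩, hk, ?_⟩
    · nlinarith
    · rw [Nat.le_div_iff_mul_le hm, mul_comm]
      exact h2
  · rintro ⟨a, b⟩ h
    simp only [Finset.mem_sigma, Finset.mem_Icc, Nat.mem_divisors] at h ⊢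
    obtain ⟨⟨h1, h2⟩, h3, h4⟩ := h
    rw [Nat.le_div_iff_mul_le (by omega)] at h4
    refine ⟨⟨Nat.mul_pos (by omega) (by omega), by rw [mul_comm]; exact h4⟩, ⟨b, rfl⟩, ?_⟩
    exact Nat.mul_ne_zero (by omega) (by omega)
  · rintro ⟨n, m⟩ h
    simp only [Finset.mem_sigma, Finset.mem_Icc, Nat.mem_divisors] at h ⊢
    rw [Nat.mul_div_cancel' h.2.1]
  · rintro ⟨a, b⟩ h
    simp only [Finset.mem_sigma, Finset.mem_Icc] at h ⊢
    rw [Nat.mul_div_cancel_left b (by omega)]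
  · rintro ⟨n, m⟩ h
    rfl

variable {f h : ℕ → ℝ} {Q : ℝ}

/-- The hyperbola method. -/
theorem hyp (hf1 : ∀ n, |f n| ≤ 1) (hh1 : ∀ n, |h n| ≤ 1) (hF : ∀ t, |T f t| ≤ Q)
    (hH : ∀ t, |T h t| ≤ Q) (u : ℕ) :
    |∑ a ∈ Icc 1 u, ∑ b ∈ Icc 1 (u / a), f a * h b| ≤ 3 * Q * Nat.sqrt u := by
  have hQ : 0 ≤ Q := (abs_nonneg _).trans (hF 0)
  set s := Nat.sqrt u with hs
  have hs1 : s * s ≤ u := Nat.sqrt_le u
  have hs2 : u < (s + 1) * (s + 1) := Nat.lt_succ_sqrt u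
  have hsu : s ≤ u := Nat.sqrt_le_self u
  have e1 : ∑ a ∈ Icc 1 u, ∑ b ∈ Icc 1 (u / a), f a * h b =
      ∑ a ∈ Icc 1 s, ∑ b ∈ Icc 1 (u / a), f a * h b +
        ∑ a ∈ Ioc s u, ∑ b ∈ Icc 1 (u / a), f a * h b := by
    rw [← Finset.sum_union]
    · congr 1
      ext x
      simp only [Finset.mem_union, Finset.mem_Icc, Finset.mem_Ioc]
      omega
    · rw [Finset.disjoint_left]
      intro x hx hx'
      simp only [Finset.mem_Icc, Finset.mem_Ioc] at hx hx'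
      omega
  have e2 : ∑ a ∈ Ioc s u, ∑ b ∈ Icc 1 (u / a), f a * h b =
      ∑ b ∈ Icc 1 s, ∑ a ∈ Ioc s (u / b), f a * h b := by
    apply Finset.sum_comm'
    intro a b
    simp only [Finset.mem_Icc, Finset.mem_Ioc]
    constructor
    · rintro ⟨⟨h1, h2⟩, h3, h4⟩
      rw [Nat.le_div_iff_mul_le (by omega)] at h4
      refine ⟨⟨h1, ?_⟩, h3, ?_⟩
      · rw [Nat.le_div_iff_mul_le (by omega), mul_comm]
        exact h4
      · by_contra hb
        have : (s + 1) * (s + 1) ≤ b * a := Nat.mul_le_mul (by omega) (by omega)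
        omega
    · rintro ⟨⟨h1, h2⟩, h3, h4⟩
      rw [Nat.le_div_iff_mul_le (by omega)] at h2
      refine ⟨⟨h1, ?_⟩, h3, ?_⟩
      · nlinarith
      · rw [Nat.le_div_iff_mul_le (by omega), mul_comm]
        exact h2
  have b1 : |∑ a ∈ Icc 1 s, ∑ b ∈ Icc 1 (u / a), f a * h b| ≤ Q * s := by
    calc |∑ a ∈ Icc 1 s, ∑ b ∈ Icc 1 (u / a), f a * h b|
        ≤ ∑ a ∈ Icc 1 s, |∑ b ∈ Icc 1 (u / a), f a * h b| := Finset.abs_sum_le_sum_abs _ _
      _ ≤ ∑ a ∈ Icc 1 s, Q := by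
          apply Finset.sum_le_sum
          intro a _
          rw [← Finset.mul_sum, abs_mul]
          calc |f a| * |∑ b ∈ Icc 1 (u / a), h b| ≤ 1 * Q :=
                mul_le_mul (hf1 a) (hH _) (abs_nonneg _) zero_le_one
            _ = Q := one_mul _
      _ = Q * s := by
          rw [Finset.sum_const, Nat.card_Icc, nsmul_eq_mul, Nat.add_sub_cancel]
          ring
  have b2 : |∑ b ∈ Icc 1 s, ∑ a ∈ Ioc s (u / b), f a * h b| ≤ 2 * Q * s := by
    calc |∑ b ∈ Icc 1 s, ∑ a ∈ Ioc s (u / b), f a * h b|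
        ≤ ∑ b ∈ Icc 1 s, |∑ a ∈ Ioc s (u / b), f a * h b| := Finset.abs_sum_le_sum_abs _ _
      _ ≤ ∑ b ∈ Icc 1 s, (2 * Q) := by
          apply Finset.sum_le_sum
          intro b hb
          rw [Finset.mem_Icc] at hb
          rw [← Finset.sum_mul, abs_mul]
          have hsb : s ≤ u / b := by
            rw [Nat.le_div_iff_mul_le (by omega)]
            nlinarith
          rw [T_sub f s _ hsb]
          have h5 : |T f (u / b) - T f s| ≤ 2 * Q := by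
            have h6 := hF (u / b)
            have h7 := hF s
            rw [abs_le] at h6 h7 ⊢
            constructor <;> linarith [h6.1, h6.2, h7.1, h7.2]
          calc |T f (u / b) - T f s| * |h b| ≤ (2 * Q) * 1 :=
                mul_le_mul h5 (hh1 b) (abs_nonneg _) (by positivity)
            _ = 2 * Q := mul_one _
      _ = 2 * Q * s := by
          rw [Finset.sum_const, Nat.card_Icc, nsmul_eq_mul, Nat.add_sub_cancel]
          ring
  rw [e1, e2]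
  calc _ ≤ _ := abs_add_le _ _
    _ ≤ Q * s + 2 * Q * s := add_le_add b1 b2
    _ = 3 * Q * s := by ring

/-- The key inequality for telescoping. -/
theorem tele (m : ℕ) (hm : 1 ≤ m) (β : ℝ) (hβ : 7 / 8 ≤ β) :
    Real.sqrt m * ((m : ℝ) ^ (-β) - ((m + 1 : ℕ) : ℝ) ^ (-β)) ≤
      3 * (Real.sqrt m * (m : ℝ) ^ (-β) - Real.sqrt (m + 1 : ℕ) * ((m + 1 : ℕ) : ℝ) ^ (-β)) := by
  have hm0 : (0 : ℝ) < m := by exact_mod_cast hm
  have hm1 : (0 : ℝ) < ((m + 1 : ℕ) : ℝ) := by positivity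
  set k : ℝ := ((m + 1 : ℕ) : ℝ) with hk
  have hkm : (m : ℝ) ≤ k := by rw [hk]; push_cast; linarith
  set x : ℝ := k / m with hx
  have hx1 : 1 ≤ x := by rw [hx, le_div_iff₀ hm0]; linarith
  have hx0 : 0 < x := by linarith
  set r : ℝ := x ^ ((1 : ℝ) / 8) with hr
  have hr1 : 1 ≤ r := Real.one_le_rpow hx1 (by norm_num)
  have hk' : k = x * m := by rw [hx]; field_simp
  have e1 : Real.sqrt k = r ^ 4 * Real.sqrt m := by
    rw [hk', Real.sqrt_mul hx0.le]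
    congr 1
    rw [Real.sqrt_eq_rpow, hr, ← Real.rpow_natCast, ← Real.rpow_mul hx0.le]
    norm_num
  have e2 : r ^ 7 * k ^ (-β) ≤ (m : ℝ) ^ (-β) := by
    rw [hk', Real.mul_rpow hx0.le hm0.le, ← mul_assoc]
    have : r ^ 7 * x ^ (-β) ≤ 1 := by
      rw [hr, ← Real.rpow_natCast, ← Real.rpow_mul hx0.le, ← Real.rpow_add hx0]
      apply Real.rpow_le_one_of_one_le_of_nonpos hx1
      push_cast
      linarith
    calc r ^ 7 * x ^ (-β) * (m : ℝ) ^ (-β) ≤ 1 * (m : ℝ) ^ (-β) :=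
          mul_le_mul_of_nonneg_right this (Real.rpow_nonneg hm0.le _)
      _ = _ := one_mul _
  have hg : 0 ≤ k ^ (-β) := Real.rpow_nonneg hm1.le _
  have hsm : 0 ≤ Real.sqrt m := Real.sqrt_nonneg _
  have e3 : 3 * r ^ 4 ≤ 2 * r ^ 7 + 1 := by
    obtain ⟨s, hs, hrs⟩ : ∃ s : ℝ, 0 ≤ s ∧ r = 1 + s := ⟨r - 1, by linarith, by ring⟩
    rw [hrs]
    have : 2 * (1 + s) ^ 7 + 1 - 3 * (1 + s) ^ 4 =
        2 * s + 24 * s ^ 2 + 58 * s ^ 3 + 67 * s ^ 4 + 42 * s ^ 5 + 14 * s ^ 6 + 2 * s ^ 7 := by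
      ring
    have h2 : 0 ≤ 2 * s + 24 * s ^ 2 + 58 * s ^ 3 + 67 * s ^ 4 + 42 * s ^ 5 + 14 * s ^ 6 +
        2 * s ^ 7 := by positivity
    linarith
  rw [e1]
  have e4 : 3 * r ^ 4 * k ^ (-β) ≤ (2 * r ^ 7 + 1) * k ^ (-β) := mul_le_mul_of_nonneg_right e3 hg
  have e5 : 3 * r ^ 4 * k ^ (-β) ≤ 2 * (m : ℝ) ^ (-β) + k ^ (-β) := by linarith
  have e6 := mul_le_mul_of_nonneg_left e5 hsm
  linarith

end Pool.Agent.N331.RP
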